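import Pool.Agent.Y133.Half.Gr0

/-!
# Direct summands of representations of symmetric groups on words
-/

set_option autoImplicit false
set_option linter.unusedSectionVars false

namespace Pool.Agent.L0h13.GP

open Module Pool.Agent.Y133.Half
open scoped TensorProduct

section central

/-- A two-sided ideal of a semisimple ring is generated by a central idempotent. -/
lemma exists_central {R : Type*} [Ring R] [IsSemisimpleRing R] (I : Ideal R)
    (hI : ∀ x ∈ I, ∀ y, x * y ∈ I) :
    ∃ e ∈ I, e * e = e ∧ (∀ x ∈ I, x * e = x) ∧ ∀ x, e * x = x * e := by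
  obtain ⟨e, he, heI⟩ := IsSemisimpleRing.ideal_eq_span_idempotent I
  let J : Ideal Rᵐᵒᵖ :=
    { carrier := {x | x.unop ∈ I}
      zero_mem' := I.zero_mem
      add_mem' := fun {a b} ha hb => I.add_mem ha hb
      smul_mem' := fun c a ha => hI _ ha _ }
  obtain ⟨f, hf, hfJ⟩ := IsSemisimpleRing.ideal_eq_span_idempotent J
  have heI' : e ∈ I := by rw [heI]; exact Ideal.mem_span_singleton_self e
  have hfJ' : f ∈ J := by rw [hfJ]; exact Ideal.mem_span_singleton_self f
  have h1 : ∀ x ∈ I, x * e = x := by
    intro x hx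
    rw [heI] at hx
    obtain ⟨a, rfl⟩ := Ideal.mem_span_singleton'.1 hx
    rw [mul_assoc, he.eq]
  have h2 : ∀ x ∈ I, f.unop * x = x := by
    intro x hx
    have hx' : MulOpposite.op x ∈ J := hx
    rw [hfJ] at hx'
    obtain ⟨a, ha⟩ := Ideal.mem_span_singleton'.1 hx'
    have h3 : MulOpposite.op x * f = MulOpposite.op x := by rw [← ha, mul_assoc, hf.eq]
    exact congrArg MulOpposite.unop h3
  have hfI : f.unop ∈ I := hfJ'
  have hef : f.unop = e := by rw [← h1 _ hfI, h2 _ heI']
  rw [hef] at h2
  refine ⟨e, heI', he.eq, h1, fun x => ?_⟩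
  rw [← h1 _ (hI _ heI' x), mul_assoc, h2 _ (I.mul_mem_left x heI')]

end central

section closed

variable {K M M' ι : Type*} [Field K] [AddCommGroup M] [Module K M] [FiniteDimensional K M]
  [AddCommGroup M'] [Module K M'] [FiniteDimensional K M'] [Fintype ι] [DecidableEq ι] {N : ℕ}

theorem sub_closed [IsAlgClosed K] [CharZero K] (e : Basis (Fin N → ι) K M)
    (ρ : Equiv.Perm (Fin N) →* Module.End K M)
    (hP : ∀ σ w, ∃ s : K, s ≠ 0 ∧ ρ σ (e (w ∘ σ)) = s • e w)
    (ρ' : Equiv.Perm (Fin N) →* Module.End K M') (i : M' →ₗ[K] M) (p : M →ₗ[K] M')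
    (hpi : ∀ x, p (i x) = x) (hi : ∀ σ x, i (ρ' σ x) = ρ σ (i x))
    (hp : ∀ σ x, p (ρ σ x) = ρ' σ (p x)) :
    finrank K M' ^ 2 ≤ finrank K (Submodule.span K (Set.range ρ')) *
      (N + 1) ^ (Fintype.card ι ^ 2) := by
  let D : Submodule K (Module.End K M) :=
    { carrier := {u | ∀ σ m, u (ρ σ m) = ρ σ (u m)}
      zero_mem' := fun σ m => by rw [LinearMap.zero_apply, LinearMap.zero_apply, map_zero]
      add_mem' := fun {a b} ha hb σ m => by
        rw [LinearMap.add_apply, LinearMap.add_apply, ha σ m, hb σ m, map_add]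
      smul_mem' := fun c a ha σ m => by
        rw [LinearMap.smul_apply, LinearMap.smul_apply, ha σ m, map_smul] }
  let D' : Submodule K (Module.End K M') :=
    { carrier := {u | ∀ σ m, u (ρ' σ m) = ρ' σ (u m)}
      zero_mem' := fun σ m => by rw [LinearMap.zero_apply, LinearMap.zero_apply, map_zero]
      add_mem' := fun {a b} ha hb σ m => by
        rw [LinearMap.add_apply, LinearMap.add_apply, ha σ m, hb σ m, map_add]
      smul_mem' := fun c a ha σ m => by
        rw [LinearMap.smul_apply, LinearMap.smul_apply, ha σ m, map_smul] }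
  have h1 := commutant_le e (fun σ => ρ σ) hP D fun u hu σ m => hu σ m
  have h2 := sq_le_mul_commutant K (repAlg ρ') M' D' fun u hu σ m => hu ⟨_, rep_mem ρ' σ⟩ m
  have h3 : finrank K (repAlg ρ') ≤ finrank K (Submodule.span K (Set.range ρ')) :=
    Submodule.finrank_mono (repAlg_le ρ')
  let Φ : D' →ₗ[K] D :=
    { toFun := fun u => ⟨i ∘ₗ (u : Module.End K M') ∘ₗ p, fun σ m => by
        change i ((u : Module.End K M') (p (ρ σ m))) = ρ σ (i ((u : Module.End K M') (p m)))
        rw [hp, u.2 σ (p m), hi]⟩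
      map_add' := fun u v => by
        apply Subtype.ext
        apply LinearMap.ext
        intro m
        change i ((u : Module.End K M') (p m) + (v : Module.End K M') (p m)) =
          i ((u : Module.End K M') (p m)) + i ((v : Module.End K M') (p m))
        rw [map_add]
      map_smul' := fun r u => by
        apply Subtype.ext
        apply LinearMap.ext
        intro m
        change i (r • (u : Module.End K M') (p m)) = r • i ((u : Module.End K M') (p m))
        rw [map_smul] }
  have hΦ : Function.Injective Φ := by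
    rw [← LinearMap.ker_eq_bot, LinearMap.ker_eq_bot']
    intro u hu
    apply Subtype.ext
    apply LinearMap.ext
    intro x
    have h4 : i ((u : Module.End K M') (p (i x))) = 0 :=
      congrArg (fun F : D => (F : Module.End K M) (i x)) hu
    rw [hpi] at h4
    have h5 := congrArg p h4
    rw [hpi, map_zero] at h5
    exact h5
  have h4 : finrank K D' ≤ finrank K D := LinearMap.finrank_le_finrank_of_injective hΦ
  exact h2.trans (Nat.mul_le_mul h3 (h4.trans h1))

end closed

section general

variable {K M M' ι : Type*} [Field K] [AddCommGroup M] [Module K M] [FiniteDimensional K M]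
  [AddCommGroup M'] [Module K M'] [FiniteDimensional K M'] [Fintype ι] [DecidableEq ι] {N : ℕ}

/-- The base change of a representation. -/
noncomputable def bcRep (L : Type*) [Field L] [Algebra K L]
    (ρ : Equiv.Perm (Fin N) →* Module.End K M) :
    Equiv.Perm (Fin N) →* Module.End L (L ⊗[K] M) where
  toFun σ := (ρ σ).baseChange L
  map_one' := by rw [map_one, LinearMap.baseChange_one]
  map_mul' σ τ := by rw [map_mul, LinearMap.baseChange_mul]

lemma bc_comp (L : Type*) [Field L] [Algebra K L] {A B C : Type*} [AddCommGroup A]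
    [AddCommGroup B] [AddCommGroup C] [Module K A] [Module K B] [Module K C] (f : B →ₗ[K] C)
    (g : A →ₗ[K] B) (x : L ⊗[K] A) :
    f.baseChange L (g.baseChange L x) = (f ∘ₗ g).baseChange L x := by
  rw [LinearMap.baseChange_comp]
  rfl

/-- The dimension of a direct summand. -/
theorem sub_general [CharZero K] (e : Basis (Fin N → ι) K M)
    (ρ : Equiv.Perm (Fin N) →* Module.End K M)
    (hP : ∀ σ w, ∃ s : K, s ≠ 0 ∧ ρ σ (e (w ∘ σ)) = s • e w)
    (ρ' : Equiv.Perm (Fin N) →* Module.End K M') (i : M' →ₗ[K] M) (p : M →ₗ[K] M')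
    (hpi : ∀ x, p (i x) = x) (hi : ∀ σ x, i (ρ' σ x) = ρ σ (i x))
    (hp : ∀ σ x, p (ρ σ x) = ρ' σ (p x)) :
    finrank K M' ^ 2 ≤ finrank K (Submodule.span K (Set.range ρ')) *
      (N + 1) ^ (Fintype.card ι ^ 2) := by
  have hc : CharZero (AlgebraicClosure K) :=
    charZero_of_injective_algebraMap (algebraMap K (AlgebraicClosure K)).injective
  have h := sub_closed (e.baseChange (AlgebraicClosure K)) (bcRep (AlgebraicClosure K) ρ) (by
    intro σ w
    obtain ⟨s, hs, h⟩ := hP σ w
    refine ⟨algebraMap K _ s, (map_ne_zero _).2 hs, ?_⟩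
    rw [Basis.baseChange_apply, Basis.baseChange_apply]
    change (ρ σ).baseChange (AlgebraicClosure K) _ = _
    rw [LinearMap.baseChange_tmul, h, TensorProduct.tmul_smul, algebraMap_smul])
    (bcRep (AlgebraicClosure K) ρ') (i.baseChange (AlgebraicClosure K))
    (p.baseChange (AlgebraicClosure K))
    (by
      intro x
      have h1 : p ∘ₗ i = LinearMap.id := LinearMap.ext hpi
      rw [bc_comp, h1, LinearMap.baseChange_id]
      rfl)
    (by
      intro σ x
      have h1 : i ∘ₗ ρ' σ = ρ σ ∘ₗ i := LinearMap.ext (hi σ)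
      change i.baseChange _ ((ρ' σ).baseChange _ x) = (ρ σ).baseChange _ (i.baseChange _ x)
      rw [bc_comp, bc_comp, h1])
    (by
      intro σ x
      have h1 : p ∘ₗ ρ σ = ρ' σ ∘ₗ p := LinearMap.ext (hp σ)
      change p.baseChange _ ((ρ σ).baseChange _ x) = (ρ' σ).baseChange _ (p.baseChange _ x)
      rw [bc_comp, bc_comp, h1])
  have h1 := finrank_span_bc (AlgebraicClosure K) (Set.range ρ')
  have h2 : (fun u : Module.End K M' => u.baseChange (AlgebraicClosure K)) '' Set.range ρ' =
      Set.range (bcRep (AlgebraicClosure K) ρ') := by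
    rw [← Set.range_comp]; rfl
  rw [h2] at h1
  rw [Module.finrank_baseChange] at h
  exact h.trans (Nat.mul_le_mul_right _ h1)

lemma finrank_range_le_of_ker {V A B : Type*} [AddCommGroup V] [Module K V]
    [FiniteDimensional K V] [AddCommGroup A] [Module K A] [AddCommGroup B] [Module K B]
    {f : V →ₗ[K] A} {g : V →ₗ[K] B} (h : LinearMap.ker g ≤ LinearMap.ker f) :
    finrank K (LinearMap.range f) ≤ finrank K (LinearMap.range g) := by
  have h1 := LinearMap.finrank_range_add_finrank_ker f
  have h2 := LinearMap.finrank_range_add_finrank_ker g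
  have h3 := Submodule.finrank_mono h
  omega

/-- **The part of the words outside an ideal.** -/
theorem exists_idem [CharZero K] (e : Basis (Fin N → ι) K M)
    (ρ : Equiv.Perm (Fin N) →* Module.End K M)
    (hP : ∀ σ w, ∃ s : K, s ≠ 0 ∧ ρ σ (e (w ∘ σ)) = s • e w)
    (J : Submodule K (Module.End K M)) (hJl : ∀ σ, ∀ x ∈ J, ρ σ * x ∈ J)
    (hJr : ∀ σ, ∀ x ∈ J, x * ρ σ ∈ J) :
    ∃ f ∈ J, f * f = f ∧
      finrank K (LinearMap.range (1 - f)) ^ 2 ≤
        finrank K ((Submodule.span K (Set.range ρ)).map J.mkQ) *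
          (N + 1) ^ (Fintype.card ι ^ 2) := by
  have hne : NeZero ((Nat.card (Equiv.Perm (Fin N)) : K)) :=
    ⟨Nat.cast_ne_zero.2 Nat.card_pos.ne'⟩
  have hss : IsSemisimpleRing (MonoidAlgebra K (Equiv.Perm (Fin N))) := by
    unfold IsSemisimpleRing
    infer_instance
  set ψ : MonoidAlgebra K (Equiv.Perm (Fin N)) →ₐ[K] Module.End K M :=
    MonoidAlgebra.lift K _ _ ρ with hψ
  have hspan : ∀ x, ψ x ∈ Submodule.span K (Set.range ρ) := fun x =>
    repAlg_le ρ ⟨x, rfl⟩
  have hsingle : ∀ σ, ψ (MonoidAlgebra.single σ 1) = ρ σ := fun σ => by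
    rw [hψ, MonoidAlgebra.lift_single, one_smul]
  have hJl' : ∀ x, ∀ y ∈ J, ψ x * y ∈ J := by
    intro x y hy
    have hx := hspan x
    generalize ψ x = u at hx ⊢
    induction hx using Submodule.span_induction with
    | mem u hu =>
      obtain ⟨σ, rfl⟩ := hu
      exact hJl σ y hy
    | zero => rw [zero_mul]; exact J.zero_mem
    | add u v _ _ hu hv => rw [add_mul]; exact J.add_mem hu hv
    | smul c u _ hu => rw [smul_mul_assoc]; exact J.smul_mem _ hu
  have hJr' : ∀ x, ∀ y ∈ J, y * ψ x ∈ J := by
    intro x y hy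
    have hx := hspan x
    generalize ψ x = u at hx ⊢
    induction hx using Submodule.span_induction with
    | mem u hu =>
      obtain ⟨σ, rfl⟩ := hu
      exact hJr σ y hy
    | zero => rw [mul_zero]; exact J.zero_mem
    | add u v _ _ hu hv => rw [mul_add]; exact J.add_mem hu hv
    | smul c u _ hu => rw [mul_smul_comm]; exact J.smul_mem _ hu
  let I : Ideal (MonoidAlgebra K (Equiv.Perm (Fin N))) :=
    { carrier := {x | ψ x ∈ J}
      zero_mem' := by
        change ψ 0 ∈ J
        rw [map_zero]; exact J.zero_mem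
      add_mem' := fun {a b} ha hb => by
        change ψ (a + b) ∈ J
        rw [map_add]; exact J.add_mem ha hb
      smul_mem' := fun c a ha => by
        change ψ (c * a) ∈ J
        rw [map_mul]; exact hJl' c _ ha }
  obtain ⟨ε, hεI, hεε, hε1, hεc⟩ := exists_central I (fun x hx y => by
    change ψ (x * y) ∈ J
    rw [map_mul]; exact hJr' y _ hx)
  set f := ψ ε with hf
  have hff : f * f = f := by rw [hf, ← map_mul, hεε]
  have hfc : ∀ σ, f * ρ σ = ρ σ * f := fun σ => by
    rw [← hsingle, hf, ← map_mul, ← map_mul, hεc]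
  refine ⟨f, hεI, hff, ?_⟩
  set z := 1 - f with hz
  have hzz : z * z = z := by
    rw [hz, mul_sub, sub_mul, sub_mul, hff]; simp
  have hzc : ∀ σ, z * ρ σ = ρ σ * z := fun σ => by
    rw [hz, sub_mul, mul_sub, hfc, one_mul, mul_one]
  set M' := LinearMap.range z with hM'
  have hst : ∀ σ, ∀ x ∈ M', ρ σ x ∈ M' := by
    rintro σ _ ⟨y, rfl⟩
    exact ⟨ρ σ y, by
      rw [← Module.End.mul_apply, hzc, Module.End.mul_apply]⟩
  have hfix : ∀ x ∈ M', z x = x := by
    rintro _ ⟨y, rfl⟩
    rw [← Module.End.mul_apply, hzz]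
  let ρ' : Equiv.Perm (Fin N) →* Module.End K M' :=
    { toFun := fun σ => (ρ σ).restrict (hst σ)
      map_one' := by
        apply LinearMap.ext
        intro x
        apply Subtype.ext
        change ρ 1 (x : M) = x
        rw [map_one]; rfl
      map_mul' := fun σ τ => by
        apply LinearMap.ext
        intro x
        apply Subtype.ext
        change ρ (σ * τ) (x : M) = ρ σ (ρ τ (x : M))
        rw [map_mul]; rfl }
  have hρ' : ∀ σ (x : M'), ((ρ' σ x : M') : M) = ρ σ (x : M) := fun σ x => rfl
  let i : M' →ₗ[K] M := M'.subtype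
  let p : M →ₗ[K] M' := z.rangeRestrict
  have h := sub_general e ρ hP ρ' i p (fun x => Subtype.ext (hfix x x.2)) (fun σ x => rfl)
    (fun σ x => by
      apply Subtype.ext
      change z (ρ σ x) = ρ σ (z x)
      rw [← Module.End.mul_apply, hzc, Module.End.mul_apply])
  refine h.trans (Nat.mul_le_mul_right _ ?_)
  let T : Module.End K M →ₗ[K] Module.End K M' :=
    { toFun := fun u => p ∘ₗ u ∘ₗ i
      map_add' := fun u v => by
        apply LinearMap.ext
        intro x
        change p (u x + v x) = p (u x) + p (v x)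
        rw [map_add]
      map_smul' := fun r u => by
        apply LinearMap.ext
        intro x
        change p (r • u x) = r • p (u x)
        rw [map_smul] }
  have hT : ∀ σ, T (ρ σ) = ρ' σ := by
    intro σ
    apply LinearMap.ext
    intro x
    apply Subtype.ext
    change z (ρ σ x) = ρ σ (x : M)
    exact hfix _ (hst σ x x.2)
  set B := Submodule.span K (Set.range ρ) with hB
  have h1 : Submodule.span K (Set.range ρ') = LinearMap.range (T ∘ₗ B.subtype) := by
    rw [LinearMap.range_comp, Submodule.range_subtype, hB, Submodule.map_span, ← Set.range_comp]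
    congr 1
    congr 1
    funext σ
    exact (hT σ).symm
  have h2 : B.map J.mkQ = LinearMap.range (J.mkQ ∘ₗ B.subtype) := by
    rw [LinearMap.range_comp, Submodule.range_subtype]
  rw [h1, h2]
  apply finrank_range_le_of_ker
  rintro ⟨b, hb⟩ hbJ
  rw [LinearMap.mem_ker, LinearMap.comp_apply, Submodule.subtype_apply, Submodule.mkQ_apply,
    Submodule.Quotient.mk_eq_zero] at hbJ
  rw [LinearMap.mem_ker, LinearMap.comp_apply, Submodule.subtype_apply]
  -- lift `b` to the group algebra
  obtain ⟨y, rfl⟩ : ∃ y, ψ y = b := by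
    have h3 : B ≤ LinearMap.range ψ.toLinearMap := by
      rw [hB, Submodule.span_le]
      rintro _ ⟨σ, rfl⟩
      exact ⟨MonoidAlgebra.single σ 1, hsingle σ⟩
    exact h3 hb
  have h4 : y * ε = y := hε1 y hbJ
  have h5 : ψ y * z = 0 := by
    rw [hz, mul_sub, mul_one, hf, ← map_mul, h4, sub_self]
  apply LinearMap.ext
  intro x
  apply Subtype.ext
  change z (ψ y x) = 0
  have h6 : ψ y (x : M) = 0 := by
    rw [← hfix x x.2, ← Module.End.mul_apply, h5, LinearMap.zero_apply]
  rw [h6, map_zero]

end general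

end Pool.Agent.L0h13.GP
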