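import Pool.Agent.N536.HK.Defs

/-!
# The non-negligible part of a motive and the numerical rank
-/

set_option autoImplicit false

open CategoryTheory AlgebraicGeometry Filter

universe u v

namespace Pool.Agent.L0h13.GP

open Pool.Agent.H914 VarClass Obj WeilCohomology Pool.Agent.N103.OC Pool.Agent.H447
  Pool.Agent.N536.HK

section Alg

variable {K : Type*} [Field K]

/-- `φ = op c` for a `K`-combination `c` of elements of `C` such that `tr (c z) = 0` for all `z` in `C`. -/
def NumTrivialIn {A B : Type*} [Ring A] [Algebra K A] (C : Set A) (tr : A →ₗ[K] K) (op : A → B)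
    (φ : B) : Prop :=
  ∃ c ∈ Submodule.span K C, (∀ z ∈ C, tr (c * z) = 0) ∧ op c = φ

/-- The ranks of `1 - f` for the idempotents `f` with the property `P`. -/
def complRanks {V : Type*} [AddCommGroup V] [Module K V] (P : Module.End K V → Prop) : Set ℕ :=
  {r | ∃ f, P f ∧ f * f = f ∧ r = Module.finrank K (LinearMap.range (1 - f))}

/-- All operators with the property `P` are nilpotent. -/
def AllNil {V : Type*} [AddCommGroup V] [Module K V] (P : Module.End K V → Prop) : Prop :=
  ∀ φ, P φ → IsNilpotent φ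

end Alg

variable {k : Type u} [Field k] {𝒱 : VarClass k} {ops : CycleOps 𝒱}

/-- The classes of the cycles of codimension `dim Y` on `Y × Y`. -/
def cycleClasses (W : WeilCohomology.{u, v} ops) (Y : 𝒱.Obj) : Set (W.H (Y.prod Y)) :=
  {c | ∃ z, (Y.prod Y).IsCyc Y.dim z ∧ W.cl (Y.prod Y) z = c}

/-- The operator `φ` on the cohomology of `Y` is induced by a combination `c`, with coefficients in the
coefficient field of the cohomology, of cycles of codimension `dim Y` on `Y × Y`, which is numerically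
trivial: its intersection numbers with all cycles of codimension `dim Y` are zero. -/
def NumTrivialOp (W : WeilCohomology.{u, v} ops) (Y : 𝒱.Obj) : (W.H Y →ₗ[W.K] W.H Y) → Prop :=
  NumTrivialIn (cycleClasses W Y) (W.tr (Y.prod Y)) W.corr

/-- The dimension of the non-negligible part of the motive of `Y`: the smallest rank of `1 - f` for an
idempotent numerically trivial `f`. -/
noncomputable def nonNeg (W : WeilCohomology.{u, v} ops) (Y : 𝒱.Obj) : ℕ :=
  sInf (complRanks (NumTrivialOp W Y))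

/-- There are cycles `z i` and `w i`, `i < r`, of codimension `dim Y` on `Y × Y` with intersection
numbers `z i · w j = 1` for `i = j` and `0` for `i ≠ j`. -/
def HasDual (ops : CycleOps 𝒱) (Y : 𝒱.Obj) (r : ℕ) : Prop :=
  ∃ z w : Fin r → (Y.prod Y).Cycles, (∀ i, (Y.prod Y).IsCyc Y.dim (z i)) ∧
    (∀ i, (Y.prod Y).IsCyc Y.dim (w i)) ∧
    ∀ i j, (Y.prod Y).V.degCycle (ops.mul (z i) (w j)) = if i = j then 1 else 0

/-- The rank of the group of cycles of codimension `dim Y` on `Y × Y` modulo numerical equivalence. -/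
noncomputable def midRank (ops : CycleOps 𝒱) (Y : 𝒱.Obj) : ℕ := sSup {r | HasDual ops Y r}

/-- On all powers of `X` the numerically trivial combinations of correspondences of degree zero are
nilpotent. -/
def NilOnPowers (W : WeilCohomology.{u, v} ops) (X : 𝒱.Obj) : Prop :=
  ∀ n ≥ 1, AllNil (NumTrivialOp W (pw X n))

/-- The bounds for one variety and for products. -/
def GeneralBounds (W : WeilCohomology.{u, v} ops) : Prop :=
  (∀ Y : 𝒱.Obj, evenOddDim W Y ≤ nonNeg W Y ∧ nonNeg W Y ≤ cohDim W Y ∧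
    HasDual ops Y (midRank ops Y) ∧ (∀ r, HasDual ops Y r → r ≤ midRank ops Y) ∧
    midRank ops Y ≤ evenOddDim W (Y.prod Y)) ∧
  ∀ Y Z : 𝒱.Obj, nonNeg W (Y.prod Z) ≤ nonNeg W Y * nonNeg W Z

/-- The bounds for the powers of `X`: with `b = cohDim`, `c = evenOddDim`, `ν = nonNeg`,
`r = midRank`, for all `n ≥ 1`,
`r(X^n) ≤ c(X^(2n)) ≤ ν(X^(2n)) ≤ ν(X^n)^2 ≤ (n + 1)^(b^2) r(X^n)`. -/
def PowerBounds (W : WeilCohomology.{u, v} ops) (X : 𝒱.Obj) : Prop :=
  ∀ n ≥ 1, midRank ops (pw X n) ≤ evenOddDim W (pw X (2 * n)) ∧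
    evenOddDim W (pw X (2 * n)) ≤ nonNeg W (pw X (2 * n)) ∧
    nonNeg W (pw X (2 * n)) ≤ nonNeg W (pw X n) ^ 2 ∧
    nonNeg W (pw X n) ^ 2 ≤ (n + 1) ^ (cohDim W X ^ 2) * midRank ops (pw X n)

/-- `b^(2n) ≤ (n + 1)^(b^2) a n` for all `n ≥ 1`. -/
def PolyLarge (b : ℕ) (a : ℕ → ℕ) : Prop := ∀ n ≥ 1, b ^ (2 * n) ≤ (n + 1) ^ (b ^ 2) * a n

/-- `a n ≤ C θ^n b^n` for all `n ≥ 1`, for some `θ < 1` and some `C`. -/
def ExpSmall (b : ℕ) (a : ℕ → ℕ) : Prop :=
  ∃ θ C : ℝ, 0 < θ ∧ θ < 1 ∧ ∀ n ≥ 1, (a n : ℝ) ≤ C * θ ^ n * (b : ℝ) ^ n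

/-- If `b(X) > 0` then the following are equivalent: numerically trivial operators on all powers of `X`
are nilpotent; the numerical ranks are large; the dimensions of the sums of even and odd motives in the
even powers are large; the latter dimensions are not exponentially small. -/
def NilIffLarge (W : WeilCohomology.{u, v} ops) (X : 𝒱.Obj) : Prop :=
  0 < cohDim W X →
    (NilOnPowers W X ↔ PolyLarge (cohDim W X) fun n => midRank ops (pw X n)) ∧
    (NilOnPowers W X ↔ PolyLarge (cohDim W X) fun n => evenOddDim W (pw X (2 * n))) ∧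
    (NilOnPowers W X ↔ ¬ ExpSmall (cohDim W X) fun n => evenOddDim W (pw X n))

/-- The three alternatives: (i) `C⁺(X)` is true, numerically trivial operators on the powers are
nilpotent, `c(X^n) = b^n`; (ii) `C⁺(X)` is false, numerically trivial operators on the powers are
nilpotent, `c(X^(2n)) ≥ b^(2n) / (n + 1)^(b^2)` for all `n`, and `c` is at most about one half of `b^n` for
one of any two successive powers; (iii) `C⁺(X)` is false, some numerically trivial operator on some power
is not nilpotent, and there is `m` such that `c(X^(mn)) ≤ (b^m - 1)^n` for all `n`, and `c(X^n)` is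
exponentially smaller than `b^n`. -/
def Alternatives (W : WeilCohomology.{u, v} ops) (X : 𝒱.Obj) : Prop :=
  (SignStd W X ∧ NilOnPowers W X ∧ ∀ n ≥ 1, evenOddDim W (pw X n) = cohDim W X ^ n) ∨
  (¬ SignStd W X ∧ NilOnPowers W X ∧
    (PolyLarge (cohDim W X) fun n => evenOddDim W (pw X (2 * n))) ∧ ∀ n ≥ 1, HalfAt W X n) ∨
  (¬ SignStd W X ∧ ¬ NilOnPowers W X ∧
    (∃ m ≥ 1, ∀ n ≥ 1, evenOddDim W (pw X (m * n)) ≤ (cohDim W X ^ m - 1) ^ n) ∧
    ExpSmall (cohDim W X) fun n => evenOddDim W (pw X n))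

end Pool.Agent.L0h13.GP
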