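import Pool.Agent.L0h13.GP.Num
import Pool.Agent.Y133.Half.Pow

/-!
# Isomorphic varieties
-/

set_option autoImplicit false

open CategoryTheory AlgebraicGeometry Finset TensorProduct Module

universe u v

namespace Pool.Agent.L0h13.GP

open Pool.Agent.H914 VarClass Obj WeilCohomology Pool.Agent.N190.CB Pool.Agent.N103.OC
  Pool.Agent.H447 Pool.Agent.N536.SG Pool.Agent.N536.HK

variable {k : Type u} [Field k] {𝒱 : VarClass k} {ops : CycleOps 𝒱}
  {W : WeilCohomology.{u, v} ops} {X Y Z : 𝒱.Obj}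

/-- The isomorphism of the cohomologies. -/
noncomputable def isoL (W : WeilCohomology.{u, v} ops) (θ : Y ≅ Z) : W.H Y ≃ₗ[W.K] W.H Z :=
  LinearEquiv.ofLinearMap (W.map θ.inv).toLinearMap (W.map θ.hom).toLinearMap
    (by
      apply LinearMap.ext
      intro x
      change W.map θ.inv (W.map θ.hom x) = x
      rw [← W.map_comp, θ.inv_hom_id, W.map_id])
    (by
      apply LinearMap.ext
      intro x
      change W.map θ.hom (W.map θ.inv x) = x
      rw [← W.map_comp, θ.hom_inv_id, W.map_id])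

lemma isoL_apply (θ : Y ≅ Z) (x : W.H Y) : isoL W θ x = W.map θ.inv x := rfl

lemma isoL_symm (θ : Y ≅ Z) (x : W.H Z) : (isoL W θ).symm x = W.map θ.hom x := rfl

/-- Transport of operators. -/
noncomputable def cj (W : WeilCohomology.{u, v} ops) (θ : Y ≅ Z) (a : Module.End W.K (W.H Y)) :
    Module.End W.K (W.H Z) := (isoL W θ).conj a

lemma cj_apply (θ : Y ≅ Z) (a : Module.End W.K (W.H Y)) (x : W.H Z) :
    cj W θ a x = W.map θ.inv (a (W.map θ.hom x)) := rfl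

lemma cj_mul (θ : Y ≅ Z) (a b : Module.End W.K (W.H Y)) :
    cj W θ (a * b) = cj W θ a * cj W θ b := by
  apply LinearMap.ext
  intro x
  rw [Module.End.mul_apply, cj_apply, cj_apply, cj_apply, ← W.map_comp, θ.hom_inv_id, W.map_id]
  rfl

lemma cj_one (θ : Y ≅ Z) : cj W θ 1 = 1 := by
  apply LinearMap.ext
  intro x
  rw [cj_apply, Module.End.one_apply, ← W.map_comp, θ.inv_hom_id, W.map_id]
  rfl

lemma cj_sub (θ : Y ≅ Z) (a b : Module.End W.K (W.H Y)) :
    cj W θ (a - b) = cj W θ a - cj W θ b := map_sub (isoL W θ).conj a b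

lemma cj_add (θ : Y ≅ Z) (a b : Module.End W.K (W.H Y)) :
    cj W θ (a + b) = cj W θ a + cj W θ b := map_add (isoL W θ).conj a b

lemma cj_cj (θ : Y ≅ Z) (a : Module.End W.K (W.H Z)) : cj W θ (cj W θ.symm a) = a := by
  apply LinearMap.ext
  intro x
  rw [cj_apply, cj_apply]
  change W.map θ.inv (W.map θ.hom (a (W.map θ.inv (W.map θ.hom x)))) = a x
  rw [← W.map_comp, ← W.map_comp, θ.inv_hom_id, W.map_id, W.map_id]

lemma trace_cj (θ : Y ≅ Z) (a : Module.End W.K (W.H Y)) :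
    LinearMap.trace W.K (W.H Z) (cj W θ a) = LinearMap.trace W.K (W.H Y) a :=
  LinearMap.trace_conj' a (isoL W θ)

lemma par_cj (θ : Y ≅ Z) : par (W.isInternal Z) = cj W θ (par (W.isInternal Y)) := by
  apply gr_ext (W.isInternal Z)
  intro i x hx
  rw [cj_apply, par, par, scal_apply _ _ hx, scal_apply _ _ (W.map_mem θ.hom hx), map_smul,
    ← W.map_comp, θ.inv_hom_id, W.map_id]

lemma str_cj (θ : Y ≅ Z) (a : Module.End W.K (W.H Y)) :
    str W Z (cj W θ a) = str W Y a := by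
  rw [str_apply, str_apply, par_cj θ, ← cj_mul, trace_cj]

lemma cj_mem (θ : Y ≅ Z) {a : Module.End W.K (W.H Y)} (ha : a ∈ KOp W Y Y 0) :
    cj W θ a ∈ KOp W Z Z 0 := by
  have h : cj W θ a = (W.map θ.inv).toLinearMap ∘ₗ a ∘ₗ (W.map θ.hom).toLinearMap := rfl
  rw [h]
  exact KOp.cast (KOp.comp (R908.KOp.mapHom θ.inv) (KOp.comp ha (R908.KOp.mapHom θ.hom)))
    (by ring)

lemma cj_nsub (θ : Y ≅ Z) {a : Module.End W.K (W.H Y)} (ha : a ∈ NSub W Y) :
    cj W θ a ∈ NSub W Z := by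
  refine ⟨cj_mem θ ha.1, fun b hb => ?_⟩
  rw [← cj_cj θ b, ← cj_mul, str_cj]
  exact ha.2 _ (cj_mem θ.symm hb)

lemma cj_pure (θ : Y ≅ Z) {s : W.K} {a : Module.End W.K (W.H Y)} (ha : a ∈ PureS W Y s) :
    cj W θ a ∈ PureS W Z s := by
  refine ⟨cj_mem θ ha.1, ?_⟩
  rw [par_cj θ, ← cj_mul, ha.2]
  exact map_smul (isoL W θ).conj s a

lemma rank_cj (θ : Y ≅ Z) {e : Module.End W.K (W.H Y)} (he : e * e = e) :
    finrank W.K (LinearMap.range (cj W θ e)) = finrank W.K (LinearMap.range e) := by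
  have h1 : cj W θ e * cj W θ e = cj W θ e := by rw [← cj_mul, he]
  have h2 := N536.HK.trace_idem h1
  rw [trace_cj, N536.HK.trace_idem he] at h2
  exact_mod_cast h2.symm

lemma nonNeg_iso_le (θ : Y ≅ Z) : nonNeg W Z ≤ nonNeg W Y := by
  obtain ⟨f, hf, hff, h⟩ := exists_nonNeg W Y
  have h1 := nonNeg_le (cj_nsub θ hf) (by rw [← cj_mul, hff])
  have h2 : 1 - cj W θ f = cj W θ (1 - f) := by rw [cj_sub, cj_one]
  rw [h2, rank_cj θ (idem_compl hff)] at h1
  rw [h]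
  exact h1

theorem nonNeg_iso (θ : Y ≅ Z) : nonNeg W Y = nonNeg W Z :=
  le_antisymm (nonNeg_iso_le θ.symm) (nonNeg_iso_le θ)

lemma evenOddDim_iso_le (θ : Y ≅ Z) : evenOddDim W Y ≤ evenOddDim W Z := by
  obtain ⟨e, he, he'⟩ := exists_halves W Y
  rw [evenOddDim_eq he he']
  obtain ⟨g, hg, hg'⟩ := exists_halves W Z
  rw [evenOddDim_eq hg hg']
  have h1 : Halves W Z (cj W θ e) := by
    obtain ⟨e0, h0, e1, h1, h2, h3, rfl⟩ := he
    exact ⟨_, cj_pure θ h0, _, cj_pure θ h1, by rw [← cj_mul, h2], by rw [← cj_mul, h3],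
      cj_add θ _ _⟩
  have h2 := rank_halves_le (Submodule.sub_mem _ (KOp.id Z) hg.mem) hg' h1
  rw [rank_cj θ he.idem] at h2
  have h3 : (1 : Module.End W.K (W.H Z)) - (LinearMap.id - g) = g := sub_sub_cancel _ _
  rwa [h3] at h2

theorem evenOddDim_iso (θ : Y ≅ Z) : evenOddDim W Y = evenOddDim W Z :=
  le_antisymm (evenOddDim_iso_le θ) (evenOddDim_iso_le θ.symm)

/-- The two descriptions of the powers. -/
lemma pw_eq (X : 𝒱.Obj) : ∀ n, pw X (n + 1) = Y133.Half.pw X n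
  | 0 => rfl
  | n + 1 => congrArg (fun P : 𝒱.Obj => P.prod X) (pw_eq X n)

/-- The power `X^(m+n)`. -/
noncomputable def addIso (X : 𝒱.Obj) {m n : ℕ} (hm : 1 ≤ m) (hn : 1 ≤ n) :
    (pw X m).prod (pw X n) ≅ pw X (m + n) :=
  eqToIso (by
      obtain ⟨m, rfl⟩ := Nat.exists_eq_add_of_le' hm
      obtain ⟨n, rfl⟩ := Nat.exists_eq_add_of_le' hn
      exact congrArg₂ (fun P Q : 𝒱.Obj => P.prod Q) (pw_eq X m) (pw_eq X n)) ≪≫
    Y133.Half.pwAdd X (m - 1) (n - 1) ≪≫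
    eqToIso (by
      obtain ⟨m, rfl⟩ := Nat.exists_eq_add_of_le' hm
      obtain ⟨n, rfl⟩ := Nat.exists_eq_add_of_le' hn
      have := pw_eq X (m + n + 1)
      rw [show m + 1 + (n + 1) = m + n + 1 + 1 by ring, this]
      rfl)

end Pool.Agent.L0h13.GP
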