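import Pool.Agent.L0h13.GP.Iso
import Pool.Agent.L0h13.GP.Alg
import Pool.Agent.Y133.Half.Growth

/-!
# The numerical rank and the non-negligible part
-/

set_option autoImplicit false

open CategoryTheory AlgebraicGeometry Finset TensorProduct Module

universe u v

namespace Pool.Agent.L0h13.GP

open Pool.Agent.H914 VarClass Obj WeilCohomology Pool.Agent.N190.CB Pool.Agent.N103.OC
  Pool.Agent.H447 Pool.Agent.N536.SG Pool.Agent.N536.HK

variable {k : Type u} [Field k] {𝒱 : VarClass k} {ops : CycleOps 𝒱}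
  {W : WeilCohomology.{u, v} ops} {X Y Z : 𝒱.Obj}

lemma tr_pair {z w : (Y.prod Y).Cycles} (hz : (Y.prod Y).IsCyc Y.dim z)
    (hw : (Y.prod Y).IsCyc Y.dim w) :
    W.tr (Y.prod Y) (W.cl _ z * W.cl _ w) = ((Y.prod Y).V.degCycle (ops.mul z w) : W.K) :=
  tr_mul_cl hz hw (by rw [dim_prod])

/-- The numerical rank is the dimension of a sum of copies of a power of the Lefschetz motive. -/
theorem dual_le (W : WeilCohomology.{u, v} ops) {r : ℕ} (h : HasDual ops Y r) :
    r ≤ evenOddDim W (Y.prod Y) := by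
  classical
  obtain ⟨z, w, hz, hw, hzw⟩ := h
  have htr : ∀ i j, W.tr (Y.prod Y) (W.cl _ (w i) * W.cl _ (z j)) = if j = i then 1 else 0 := by
    intro i j
    rw [W.even_comm (W.cl_mem (hw i)), tr_pair (hz j) (hw i), hzw]
    split_ifs <;> simp
  set R : Fin r → Module.End W.K (W.H (Y.prod Y)) := fun i =>
    W.corr (W.cl _ (ops.mul (ops.pull (fst (Y.prod Y) (Y.prod Y)) (w i))
      (ops.pull (snd (Y.prod Y) (Y.prod Y)) (z i)))) with hR
  have hRx : ∀ i x, R i x = W.tr (Y.prod Y) (W.cl _ (w i) * x) • W.cl _ (z i) := fun i x =>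
    corr_pair (hz i) (w i) x
  have hRm : ∀ i, R i ∈ KOp W (Y.prod Y) (Y.prod Y) 0 := by
    intro i
    have hcyc := ops.mul_mem (ops.pull_mem (fst (Y.prod Y) (Y.prod Y)) (hw i))
      (ops.pull_mem (snd (Y.prod Y) (Y.prod Y)) (hz i))
    exact KOp.gen (by rw [dim_prod]; push_cast; ring) hcyc
  set e : Module.End W.K (W.H (Y.prod Y)) := ∑ i, R i with he
  have hex : ∀ x, e x = ∑ i, W.tr (Y.prod Y) (W.cl _ (w i) * x) • W.cl _ (z i) := by
    intro x
    rw [he, LinearMap.sum_apply]
    exact Finset.sum_congr rfl fun i _ => hRx i x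
  have hez : ∀ j, e (W.cl _ (z j)) = W.cl _ (z j) := by
    intro j
    rw [hex, Finset.sum_eq_single j]
    · rw [htr, if_pos rfl, one_smul]
    · intro i _ hi
      rw [htr, if_neg (Ne.symm hi), zero_smul]
    · intro hj
      exact absurd (Finset.mem_univ j) hj
  have hee : e * e = e := by
    apply LinearMap.ext
    intro x
    rw [Module.End.mul_apply, hex x, map_sum]
    exact Finset.sum_congr rfl fun i _ => by rw [map_smul, hez]
  have hem : e ∈ KOp W (Y.prod Y) (Y.prod Y) 0 := Submodule.sum_mem _ fun i _ => hRm i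
  have hep : e ∈ PureS W (Y.prod Y) 1 := by
    refine mem_pureS_of_kill hem fun m hm x hx => ?_
    rw [hex]
    apply Finset.sum_eq_zero
    intro i _
    rw [W.tr_eq_zero (W.mul_mem (W.cl_mem (hw i)) hx), zero_smul]
    intro h1
    apply hm
    rw [dim_prod] at h1
    have h2 : m = 2 * Y.dim := by omega
    rw [h2, pow_mul, neg_one_sq, one_pow]
  have htrace : LinearMap.trace W.K _ e = (r : W.K) := by
    rw [he, map_sum]
    have h1 : ∀ i ∈ Finset.univ, LinearMap.trace W.K _ (R i) = 1 := by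
      intro i _
      have h2 : R i = (W.tr (Y.prod Y) ∘ₗ LinearMap.mulLeft W.K (W.cl _ (w i))).smulRight
          (W.cl _ (z i)) := by
        apply LinearMap.ext
        intro x
        rw [hRx]
        rfl
      rw [h2, LinearMap.trace_smulRight, LinearMap.comp_apply, LinearMap.mulLeft_apply, htr,
        if_pos rfl]
    rw [Finset.sum_congr rfl h1]
    simp
  have hrank : finrank W.K (LinearMap.range e) = r := by
    have h1 := N536.HK.trace_idem hee
    rw [htrace] at h1
    exact_mod_cast h1.symm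
  have h0 : (0 : Module.End W.K (W.H (Y.prod Y))) ∈ PureS W (Y.prod Y) (-1) :=
    Submodule.zero_mem _
  have h1 : Halves W (Y.prod Y) e := ⟨e, hep, 0, h0, hee, by simp, by simp⟩
  obtain ⟨g, hg, hg'⟩ := exists_halves W (Y.prod Y)
  rw [evenOddDim_eq hg hg']
  have h2 := rank_halves_le (Submodule.sub_mem _ (KOp.id (Y.prod Y)) hg.mem) hg' h1
  have h3 : (1 : Module.End W.K (W.H (Y.prod Y))) - (LinearMap.id - g) = g := sub_sub_cancel _ _
  rw [h3, hrank] at h2
  exact h2

lemma hasDual_zero (ops : CycleOps 𝒱) (Y : 𝒱.Obj) : HasDual ops Y 0 :=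
  ⟨fun i => i.elim0, fun i => i.elim0, fun i => i.elim0, fun i => i.elim0, fun i => i.elim0⟩

lemma hasDual_bdd (W : WeilCohomology.{u, v} ops) (Y : 𝒱.Obj) : BddAbove {r | HasDual ops Y r} :=
  ⟨evenOddDim W (Y.prod Y), fun _ h => dual_le W h⟩

lemma hasDual_midRank (W : WeilCohomology.{u, v} ops) (Y : 𝒱.Obj) :
    HasDual ops Y (midRank ops Y) :=
  Nat.sSup_mem ⟨0, hasDual_zero ops Y⟩ (hasDual_bdd W Y)

lemma le_midRank (W : WeilCohomology.{u, v} ops) {r : ℕ} (h : HasDual ops Y r) :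
    r ≤ midRank ops Y := le_csSup (hasDual_bdd W Y) h

/-- Dual cycles for a basis of the space of algebraic operators modulo numerically trivial ones. -/
theorem hasDual_of_basis {r : ℕ} (z : Fin r → (Y.prod Y).Cycles)
    (hz : ∀ i, (Y.prod Y).IsCyc Y.dim (z i))
    (hli : LinearIndependent W.K fun i => (NSub W Y).mkQ (cop W (z i)))
    (hspan : (KOp W Y Y 0).map (NSub W Y).mkQ =
      Submodule.span W.K (Set.range fun i => (NSub W Y).mkQ (cop W (z i)))) :
    HasDual ops Y r := by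
  classical
  -- the Gram matrix
  let G : Matrix (Fin r) (Fin r) ℚ := fun i j =>
    (Y.prod Y).V.degCycle (ops.mul (z i) (ops.pull (swap Y Y) (z j)))
  have hG' : ∀ i j, W.tr (Y.prod Y) (W.cl _ (z i) * W.cl _ (ops.pull (swap Y Y) (z j))) =
      (G i j : W.K) := fun i j => tr_pair (hz i) (ops.pull_mem _ (hz j))
  have hG : ∀ i j, str W Y (cop W (z i) * cop W (z j)) = (G i j : W.K) := by
    intro i j
    rw [← hG', cop, cop, str_corr_mul (W.cl_mem (hz i)), W.cl_pull]
  have hinj : ∀ v : Fin r → W.K, (∀ i, ∑ j, (G i j : W.K) * v j = 0) → v = 0 := by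
    intro v hv
    set φ : Module.End W.K (W.H Y) := ∑ j, v j • cop W (z j) with hφ
    have hφm : φ ∈ KOp W Y Y 0 := Submodule.sum_mem _ fun j _ =>
      Submodule.smul_mem _ _ (cop_mem (hz j))
    have h1 : ∀ i, str W Y (cop W (z i) * φ) = 0 := by
      intro i
      rw [hφ, Finset.mul_sum, map_sum, ← hv i]
      refine Finset.sum_congr rfl fun j _ => ?_
      rw [mul_smul_comm, map_smul, hG, smul_eq_mul, mul_comm]
    have h2 : φ ∈ NSub W Y := by
      refine ⟨hφm, fun a ha => ?_⟩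
      have h3 : (NSub W Y).mkQ a ∈
          Submodule.span W.K (Set.range fun i => (NSub W Y).mkQ (cop W (z i))) := by
        rw [← hspan]
        exact Submodule.mem_map_of_mem ha
      obtain ⟨c, hc⟩ := (Submodule.mem_span_range_iff_exists_fun W.K).1 h3
      have h4 : a - ∑ i, c i • cop W (z i) ∈ NSub W Y := by
        rw [← Submodule.Quotient.mk_eq_zero, ← Submodule.mkQ_apply, map_sub, map_sum, ← hc,
          sub_eq_zero]
        exact Finset.sum_congr rfl fun i _ => by rw [map_smul]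
      have h5 : a = (a - ∑ i, c i • cop W (z i)) + ∑ i, c i • cop W (z i) := by
        rw [sub_add_cancel]
      have h6 : str W Y ((a - ∑ i, c i • cop W (z i)) * φ) = 0 := by
        rw [str_comm h4.1]
        exact h4.2 φ hφm
      have h7 : str W Y ((∑ i, c i • cop W (z i)) * φ) = 0 := by
        rw [Finset.sum_mul, map_sum]
        exact Finset.sum_eq_zero fun i _ => by rw [smul_mul_assoc, map_smul, h1, smul_zero]
      have h8 : str W Y (a * φ) = str W Y ((a - ∑ i, c i • cop W (z i)) * φ) +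
          str W Y ((∑ i, c i • cop W (z i)) * φ) := by
        rw [← map_add, ← add_mul, ← h5]
      rw [h8, h6, h7, add_zero]
    have h3 : ∑ j, v j • (NSub W Y).mkQ (cop W (z j)) = 0 := by
      have h4 : (NSub W Y).mkQ φ = 0 := by
        rw [Submodule.mkQ_apply, Submodule.Quotient.mk_eq_zero]
        exact h2
      rw [← h4, hφ, map_sum]
      exact Finset.sum_congr rfl fun j _ => by rw [map_smul]
    funext j
    exact Fintype.linearIndependent_iff.1 hli v h3 j
  have hdet : G.det ≠ 0 := by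
    intro h0
    have h1 : (G.map (algebraMap ℚ W.K)).det = 0 := by
      have h2 := RingHom.map_det (algebraMap ℚ W.K) G
      rw [h0, map_zero] at h2
      exact h2.symm
    obtain ⟨v, hv0, hv⟩ := Matrix.exists_mulVec_eq_zero_iff.2 h1
    apply hv0
    apply hinj
    intro i
    have h3 := congrFun hv i
    rw [Matrix.mulVec, dotProduct] at h3
    exact h3
  have hunit : IsUnit G.det := isUnit_iff_ne_zero.2 hdet
  have hcyc : ∀ j, (Y.prod Y).IsCyc Y.dim (∑ l, G⁻¹ l j • ops.pull (swap Y Y) (z l)) := fun j =>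
    Finset.sum_induction _ (fun u => (Y.prod Y).IsCyc Y.dim u) (fun a b => SmVar.IsCyc.add)
      (SmVar.IsCyc.zero _ _) (fun l _ => (ops.pull_mem _ (hz l)).smul _)
  refine ⟨z, fun j => ∑ l, G⁻¹ l j • ops.pull (swap Y Y) (z l), hz, hcyc, fun i j => ?_⟩
  have h1 := tr_pair (W := W) (hz i) (hcyc j)
  have h2 : W.cl (Y.prod Y) (∑ l, G⁻¹ l j • ops.pull (swap Y Y) (z l)) =
      ∑ l, ((G⁻¹ l j : ℚ) : W.K) • W.cl _ (ops.pull (swap Y Y) (z l)) := by
    rw [map_sum]
    exact Finset.sum_congr rfl fun l _ => cl_smul W _ _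
  rw [h2, Finset.mul_sum, map_sum] at h1
  have h3 : ∑ l, W.tr (Y.prod Y) (W.cl _ (z i) *
      (((G⁻¹ l j : ℚ) : W.K) • W.cl _ (ops.pull (swap Y Y) (z l)))) =
      (((G * G⁻¹) i j : ℚ) : W.K) := by
    rw [Matrix.mul_apply]
    push_cast
    refine Finset.sum_congr rfl fun l _ => ?_
    rw [mul_smul_comm, map_smul, hG', smul_eq_mul, mul_comm]
  rw [h3, Matrix.mul_nonsing_inv G hunit, Matrix.one_apply] at h1
  exact_mod_cast h1.symm

/-- The numerical rank is the dimension of the space of algebraic operators modulo numerically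
trivial ones. -/
theorem hasDual_finrank (W : WeilCohomology.{u, v} ops) (Y : 𝒱.Obj) :
    HasDual ops Y (finrank W.K ((KOp W Y Y 0).map (NSub W Y).mkQ)) := by
  set S : Set (Module.End W.K (W.H Y) ⧸ NSub W Y) :=
    {x | ∃ z, (Y.prod Y).IsCyc Y.dim z ∧ (NSub W Y).mkQ (cop W z) = x} with hS
  have hspan : (KOp W Y Y 0).map (NSub W Y).mkQ = Submodule.span W.K S := by
    rw [KOp, Submodule.map_span]
    congr 1
    ext x
    constructor
    · rintro ⟨_, ⟨p, hp, z, hz, rfl⟩, rfl⟩
      have hp' : p = Y.dim := by omega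
      subst hp'
      exact ⟨z, hz, rfl⟩
    · rintro ⟨z, hz, rfl⟩
      exact ⟨_, ⟨Y.dim, by simp, z, hz, rfl⟩, rfl⟩
  rw [hspan]
  obtain ⟨f, hfS, hfspan, hfli⟩ := Submodule.exists_fun_fin_finrank_span_eq W.K S
  choose z hz hzf using hfS
  have hzf' : (fun i => (NSub W Y).mkQ (cop W (z i))) = f := funext hzf
  apply hasDual_of_basis z hz
  · rw [hzf']; exact hfli
  · rw [hzf', hfspan, hspan]

lemma finrank_quot_le (W : WeilCohomology.{u, v} ops) (Y : 𝒱.Obj) :
    finrank W.K ((KOp W Y Y 0).map (NSub W Y).mkQ) ≤ midRank ops Y :=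
  le_midRank W (hasDual_finrank W Y)

/-- **The lower bound for the numerical rank.** -/
theorem sq_le_midRank (W : WeilCohomology.{u, v} ops) (X : 𝒱.Obj) (n : ℕ) :
    nonNeg W (pw X (n + 1)) ^ 2 ≤
      (n + 2) ^ (cohDim W X ^ 2) * midRank ops (pw X (n + 1)) := by
  rw [pw_eq]
  obtain ⟨e, he⟩ := Y133.Half.exists_hbasis W X
  have hρ : ∀ σ, Y133.Half.rho W X n σ ∈ KOp W (Y133.Half.pw X n) (Y133.Half.pw X n) 0 :=
    fun σ => R908.KOp.mapHom _
  obtain ⟨f, hf, hff, h⟩ := exists_idem (Y133.Half.wb e n) (Y133.Half.rho W X n)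
    (Y133.Half.tau_wb e he n) (NSub W (Y133.Half.pw X n)) (fun σ x hx => nsub_mul hx (hρ σ))
    (fun σ x hx => nsub_mul' hx (hρ σ))
  have h1 := nonNeg_le hf hff
  have h2 : finrank W.K ((Submodule.span W.K (Set.range (Y133.Half.rho W X n))).map
      (NSub W (Y133.Half.pw X n)).mkQ) ≤
      finrank W.K ((KOp W (Y133.Half.pw X n) (Y133.Half.pw X n) 0).map
        (NSub W (Y133.Half.pw X n)).mkQ) := by
    apply Submodule.finrank_mono
    apply Submodule.map_mono
    rw [Submodule.span_le]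
    rintro _ ⟨σ, rfl⟩
    exact hρ σ
  have h3 := h2.trans (finrank_quot_le W _)
  rw [Fintype.card_fin] at h
  calc nonNeg W (Y133.Half.pw X n) ^ 2 ≤ finrank W.K (LinearMap.range (1 - f)) ^ 2 :=
        Nat.pow_le_pow_left h1 2
    _ ≤ _ := h
    _ ≤ midRank ops (Y133.Half.pw X n) * (n + 1 + 1) ^ (cohDim W X ^ 2) :=
        Nat.mul_le_mul_right _ h3
    _ = _ := by rw [mul_comm]

end Pool.Agent.L0h13.GP
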