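import Pool.Agent.L0h13.GP.Low

/-!
# The growth of the sums of even and odd motives in the powers of a variety
-/

set_option autoImplicit false

open CategoryTheory AlgebraicGeometry Finset TensorProduct Module

universe u v w

namespace Pool.Agent.L0h13.GP

open Pool.Agent.H914 VarClass Obj WeilCohomology Pool.Agent.N190.CB Pool.Agent.N103.OC
  Pool.Agent.H447 Pool.Agent.N536.SG Pool.Agent.N536.HK

section Real

open Filter Topology

lemma poly_exp {θ : ℝ} (h0 : 0 < θ) (h1 : θ < 1) (C : ℝ) (d : ℕ) :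
    ∃ n : ℕ, 1 ≤ n ∧ C * ((n + 1 : ℕ) : ℝ) ^ d * θ ^ (2 * n) < 1 := by
  have hθ2 : |θ ^ 2| < 1 := by
    rw [abs_of_nonneg (by positivity)]
    nlinarith
  have h2 := tendsto_pow_const_mul_const_pow_of_abs_lt_one d hθ2
  have h3 : Tendsto (fun n : ℕ => C / θ ^ 2 * (((n + 1 : ℕ) : ℝ) ^ d * (θ ^ 2) ^ (n + 1))) atTop
      (𝓝 (C / θ ^ 2 * 0)) := (h2.comp (tendsto_add_atTop_nat 1)).const_mul _
  rw [mul_zero] at h3
  obtain ⟨n, hn, hn1⟩ := ((h3.eventually (gt_mem_nhds one_pos)).and (eventually_ge_atTop 1)).exists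
  refine ⟨n, hn1, lt_of_eq_of_lt ?_ hn⟩
  have hθ : θ ≠ 0 := h0.ne'
  rw [← pow_mul, show 2 * (n + 1) = 2 * n + 2 by ring, pow_add]
  field_simp

/-- The two kinds of growth exclude each other. -/
lemma not_both {b : ℕ} (hb : 0 < b) {a a' : ℕ → ℕ} (h1 : PolyLarge b a) (h2 : ExpSmall b a')
    (h : ∀ n ≥ 1, a n ≤ a' (2 * n)) : False := by
  obtain ⟨θ, C, h0, hlt, hC⟩ := h2
  obtain ⟨n, hn, hn'⟩ := poly_exp h0 hlt C (b ^ 2)
  have h3 := h1 n hn
  have h4 := hC (2 * n) (by omega)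
  have h5 : (a n : ℝ) ≤ a' (2 * n) := by exact_mod_cast h n hn
  have h6 : (b : ℝ) ^ (2 * n) ≤ ((n + 1 : ℕ) : ℝ) ^ (b ^ 2) * a n := by exact_mod_cast h3
  have hbpos : (0 : ℝ) < (b : ℝ) ^ (2 * n) := by positivity
  have hnpos : (0 : ℝ) ≤ ((n + 1 : ℕ) : ℝ) ^ (b ^ 2) := by positivity
  have h7 : (b : ℝ) ^ (2 * n) ≤ ((n + 1 : ℕ) : ℝ) ^ (b ^ 2) *
      (C * θ ^ (2 * n) * (b : ℝ) ^ (2 * n)) :=
    h6.trans (mul_le_mul_of_nonneg_left (h5.trans h4) hnpos)
  have h8 : ((n + 1 : ℕ) : ℝ) ^ (b ^ 2) * (C * θ ^ (2 * n) * (b : ℝ) ^ (2 * n)) =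
      (C * ((n + 1 : ℕ) : ℝ) ^ (b ^ 2) * θ ^ (2 * n)) * (b : ℝ) ^ (2 * n) := by ring
  rw [h8] at h7
  have h9 := mul_lt_mul_of_pos_right hn' hbpos
  rw [one_mul] at h9
  exact absurd (lt_of_le_of_lt h7 h9) (lt_irrefl _)

/-- Submultiplicative sequences with one small value. -/
lemma expSmall_of {b m : ℕ} (hb : 0 < b) (hm : 1 ≤ m) {u : ℕ → ℕ} (h1 : ∀ n ≥ 1, u n ≤ b ^ n)
    (h2 : ∀ i ≥ 1, ∀ j ≥ 1, u (i + j) ≤ u i * u j) (h3 : u m ≤ b ^ m - 1) : ExpSmall b u := by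
  have hbm : 0 < b ^ m := Nat.pow_pos hb
  have hbR : (0 : ℝ) < (b : ℝ) ^ m := by positivity
  have hbR1 : (1 : ℝ) ≤ (b : ℝ) ^ m := by exact_mod_cast hbm
  have hmR : (1 : ℝ) ≤ m := by exact_mod_cast hm
  set x : ℝ := 1 / (2 * m * (b : ℝ) ^ m) with hx
  have hx0 : 0 < x := by positivity
  have hx1 : x ≤ 1 / 2 := by
    rw [hx]
    apply one_div_le_one_div_of_le (by norm_num)
    nlinarith
  set θ : ℝ := 1 - x with hθ
  have hθ0 : 0 < θ := by linarith
  have hθ1 : θ < 1 := by linarith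
  have hbern : 1 - m * x ≤ θ ^ m := by
    have := one_add_mul_le_pow (a := -x) (by linarith) m
    have h4 : 1 + (m : ℝ) * -x = 1 - m * x := by ring
    rw [h4] at this
    rw [hθ, sub_eq_add_neg]
    exact this
  have hmx : (m : ℝ) * x * (b : ℝ) ^ m = 1 / 2 := by
    rw [hx]
    field_simp
  have hum : (u m : ℝ) ≤ θ ^ m * (b : ℝ) ^ m := by
    have h4 : (u m : ℝ) ≤ (b : ℝ) ^ m - 1 := by
      have h5 : u m + 1 ≤ b ^ m := by omega
      have h6 : ((u m + 1 : ℕ) : ℝ) ≤ ((b ^ m : ℕ) : ℝ) := by exact_mod_cast h5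
      push_cast at h6
      linarith
    have h5 := mul_le_mul_of_nonneg_right hbern hbR.le
    have h6 : (1 - (m : ℝ) * x) * (b : ℝ) ^ m = (b : ℝ) ^ m - 1 / 2 := by
      rw [sub_mul, hmx, one_mul]
    linarith
  refine ⟨θ, (θ ^ m)⁻¹, hθ0, hθ1, ?_⟩
  have hC : (θ ^ m)⁻¹ * θ ^ m = 1 := inv_mul_cancel₀ (by positivity)
  have hCpos : 0 < (θ ^ m)⁻¹ := by positivity
  intro n
  induction n using Nat.strong_induction_on with
  | _ n ih =>
    intro hn
    by_cases hnm : n ≤ m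
    · have h4 : (u n : ℝ) ≤ (b : ℝ) ^ n := by exact_mod_cast h1 n hn
      have h5 : θ ^ m ≤ θ ^ n := pow_le_pow_of_le_one hθ0.le hθ1.le hnm
      have h6 : 1 ≤ (θ ^ m)⁻¹ * θ ^ n := by
        rw [← hC]
        exact mul_le_mul_of_nonneg_left h5 hCpos.le
      have h7 : (0 : ℝ) ≤ (b : ℝ) ^ n := by positivity
      nlinarith
    · obtain ⟨j, rfl⟩ := Nat.exists_eq_add_of_le (not_le.1 hnm).le
      have hj : 1 ≤ j := by omega
      have h4 := ih j (by omega) hj
      have h5 : (u (m + j) : ℝ) ≤ u m * u j := by exact_mod_cast h2 m hm j hj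
      have h6 : (u m : ℝ) * u j ≤ (θ ^ m * (b : ℝ) ^ m) * ((θ ^ m)⁻¹ * θ ^ j * (b : ℝ) ^ j) :=
        mul_le_mul hum h4 (Nat.cast_nonneg _) (by positivity)
      refine h5.trans (h6.trans (le_of_eq ?_))
      rw [pow_add, pow_add]
      ring

lemma le_of_poly {b b' : ℕ} (h : ∀ n ≥ 1, b ^ (2 * n) ≤ (n + 1) ^ (b ^ 2) * b' ^ (2 * n)) :
    b ≤ b' := by
  by_contra hlt
  push Not at hlt
  have hb : (0 : ℝ) < b := by
    have : 0 < b := by omega
    exact_mod_cast this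
  rcases Nat.eq_zero_or_pos b' with h0 | h0
  · have h1 := h 1 le_rfl
    rw [h0] at h1
    simp at h1
    omega
  · have hb' : (0 : ℝ) < b' := by exact_mod_cast h0
    have hθ1 : (b' : ℝ) / b < 1 := by
      rw [div_lt_one hb]
      exact_mod_cast hlt
    obtain ⟨n, hn, hn'⟩ := poly_exp (div_pos hb' hb) hθ1 1 (b ^ 2)
    have h1 := h n hn
    have h2 : (b : ℝ) ^ (2 * n) ≤ ((n + 1 : ℕ) : ℝ) ^ (b ^ 2) * (b' : ℝ) ^ (2 * n) := by
      exact_mod_cast h1
    rw [one_mul, div_pow, ← mul_div_assoc, div_lt_one (by positivity)] at hn'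
    exact absurd (lt_of_le_of_lt h2 hn') (lt_irrefl _)

end Real

variable {k : Type u} [Field k] {𝒱 : VarClass k} {ops : CycleOps 𝒱}
  {W : WeilCohomology.{u, v} ops} {X Y Z : 𝒱.Obj}

theorem generalBounds (W : WeilCohomology.{u, v} ops) : GeneralBounds W :=
  ⟨fun Y => ⟨evenOddDim_le_nonNeg W Y, nonNeg_le_cohDim W Y, hasDual_midRank W Y,
    fun _ h => le_midRank W h, dual_le W (hasDual_midRank W Y)⟩, nonNeg_prod W⟩

lemma nonNeg_add (W : WeilCohomology.{u, v} ops) (X : 𝒱.Obj) {m n : ℕ} (hm : 1 ≤ m) (hn : 1 ≤ n) :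
    nonNeg W (pw X (m + n)) ≤ nonNeg W (pw X m) * nonNeg W (pw X n) := by
  rw [← nonNeg_iso (addIso X hm hn)]
  exact nonNeg_prod W _ _

theorem powerBounds (W : WeilCohomology.{u, v} ops) (X : 𝒱.Obj) : PowerBounds W X := by
  intro n hn
  refine ⟨?_, evenOddDim_le_nonNeg W _, ?_, ?_⟩
  · have h := dual_le W (hasDual_midRank W (pw X n))
    rw [evenOddDim_iso (addIso X hn hn)] at h
    rwa [two_mul]
  · rw [two_mul, sq]
    exact nonNeg_add W X hn hn
  · obtain ⟨n, rfl⟩ := Nat.exists_eq_add_of_le' hn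
    exact sq_le_midRank W X n

/-- A numerically trivial idempotent from an operator which is not nilpotent. -/
lemma nonNeg_lt {φ : Module.End W.K (W.H Y)} (hφ : φ ∈ NSub W Y) (h : ¬ IsNilpotent φ) :
    nonNeg W Y + 1 ≤ cohDim W Y := by
  obtain ⟨e, he, hee, htr⟩ := exists_max_idem (NSub W Y) fun a ha b hb => nsub_mul hb ha.1
  have he0 : e ≠ 0 := by
    rintro rfl
    apply h
    apply isNilpotent_of_trace_pow
    intro r
    have h1 : φ ^ (r + 1) ∈ NSub W Y := by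
      induction r with
      | zero => rw [zero_add, pow_one]; exact hφ
      | succ r ih => rw [pow_succ]; exact nsub_mul hφ ih.1
    have h2 := htr _ h1
    rwa [sub_zero, one_mul] at h2
  have h1 := nonNeg_le he hee
  have h2 := rank_compl hee
  have h3 : 0 < finrank W.K (LinearMap.range e) := by
    rw [Nat.pos_iff_ne_zero]
    intro h0
    exact he0 (LinearMap.range_eq_bot.1 (Submodule.finrank_eq_zero.1 h0))
  change _ ≤ finrank W.K (W.H Y)
  omega

lemma nonNeg_eq_of_nil (h : AllNil (NumTrivialOp W Y)) :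
    nonNeg W Y = cohDim W Y := by
  obtain ⟨f, hf, hff, h1⟩ := exists_nonNeg W Y
  obtain ⟨n, hn⟩ := h f (numTrivialOp_iff.2 hf)
  have h2 : ∀ m : ℕ, f ^ (m + 1) = f := by
    intro m
    induction m with
    | zero => rw [zero_add, pow_one]
    | succ m ih => rw [pow_succ, ih, hff]
  have h3 : f = 0 := by
    rw [← h2 n, pow_succ, hn, zero_mul]
  rw [h1, h3, sub_zero]
  have h4 : LinearMap.range (1 : Module.End W.K (W.H Y)) = ⊤ := LinearMap.range_id
  rw [h4, finrank_top]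
  rfl

lemma exists_small (h : ¬ NilOnPowers W X) :
    ∃ m ≥ 1, nonNeg W (pw X m) + 1 ≤ cohDim W X ^ m := by
  unfold NilOnPowers AllNil at h
  push Not at h
  obtain ⟨m, hm, φ, hφ, hn⟩ := h
  refine ⟨m, hm, ?_⟩
  have h1 := nonNeg_lt (numTrivialOp_iff.1 hφ) hn
  obtain ⟨m, rfl⟩ := Nat.exists_eq_add_of_le' hm
  rwa [cohDim_pw] at h1

lemma nonNeg_le_pow (W : WeilCohomology.{u, v} ops) (X : 𝒱.Obj) {n : ℕ} (hn : 1 ≤ n) :
    nonNeg W (pw X n) ≤ cohDim W X ^ n := by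
  obtain ⟨n, rfl⟩ := Nat.exists_eq_add_of_le' hn
  rw [← cohDim_pw]
  exact nonNeg_le_cohDim W _

lemma nonNeg_mul (W : WeilCohomology.{u, v} ops) (X : 𝒱.Obj) {m : ℕ} (hm : 1 ≤ m) (n : ℕ) :
    nonNeg W (pw X (m * (n + 1))) ≤ nonNeg W (pw X m) ^ (n + 1) := by
  induction n with
  | zero => rw [zero_add, mul_one, pow_one]
  | succ n ih =>
    rw [mul_add, mul_one, pow_succ]
    exact (nonNeg_add W X (Nat.mul_pos hm (Nat.succ_pos n)) hm).trans (Nat.mul_le_mul_right _ ih)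

/-- **Exponential decay.** -/
theorem decay (h : ¬ NilOnPowers W X) :
    (∃ m ≥ 1, ∀ n ≥ 1, evenOddDim W (pw X (m * n)) ≤ (cohDim W X ^ m - 1) ^ n) ∧
      ExpSmall (cohDim W X) fun n => evenOddDim W (pw X n) := by
  obtain ⟨m, hm, h1⟩ := exists_small h
  refine ⟨⟨m, hm, fun n hn => ?_⟩, ?_⟩
  · obtain ⟨n, rfl⟩ := Nat.exists_eq_add_of_le' hn
    exact (evenOddDim_le_nonNeg W _).trans ((nonNeg_mul W X hm n).trans
      (Nat.pow_le_pow_left (by omega) _))
  · have hb : 0 < cohDim W X := by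
      rw [Nat.pos_iff_ne_zero]
      intro h0
      rw [h0, zero_pow (by omega)] at h1
      omega
    obtain ⟨θ, C, h2, h3, h4⟩ := expSmall_of hb hm (u := fun n => nonNeg W (pw X n))
      (fun n hn => nonNeg_le_pow W X hn) (fun i hi j hj => nonNeg_add W X hi hj)
      (show nonNeg W (pw X m) ≤ cohDim W X ^ m - 1 by omega)
    refine ⟨θ, C, h2, h3, fun n hn => le_trans ?_ (h4 n hn)⟩
    exact_mod_cast evenOddDim_le_nonNeg W (pw X n)

lemma large_of_nil (h : NilOnPowers W X) :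
    PolyLarge (cohDim W X) fun n => midRank ops (pw X n) := by
  intro n hn
  have h1 := (powerBounds W X n hn).2.2.2
  rw [nonNeg_eq_of_nil (h n hn)] at h1
  obtain ⟨n, rfl⟩ := Nat.exists_eq_add_of_le' hn
  rw [cohDim_pw, ← pow_mul, mul_comm (n + 1) 2] at h1
  exact h1

lemma large_mono {b : ℕ} {a a' : ℕ → ℕ} (h : PolyLarge b a) (h' : ∀ n ≥ 1, a n ≤ a' n) :
    PolyLarge b a' := fun n hn => (h n hn).trans (Nat.mul_le_mul_left _ (h' n hn))

theorem nilIffLarge (W : WeilCohomology.{u, v} ops) (X : 𝒱.Obj) : NilIffLarge W X := by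
  intro hb
  have h1 : (PolyLarge (cohDim W X) fun n => midRank ops (pw X n)) →
      PolyLarge (cohDim W X) fun n => evenOddDim W (pw X (2 * n)) := fun h =>
    large_mono h fun n hn => (powerBounds W X n hn).1
  have h2 : (PolyLarge (cohDim W X) fun n => evenOddDim W (pw X (2 * n))) →
      ¬ ExpSmall (cohDim W X) fun n => evenOddDim W (pw X n) := fun h h' =>
    not_both hb h h' fun n _ => le_rfl
  have h3 : (¬ ExpSmall (cohDim W X) fun n => evenOddDim W (pw X n)) → NilOnPowers W X := by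
    intro h
    by_contra hn
    exact h (decay hn).2
  exact ⟨⟨large_of_nil, fun h => h3 (h2 (h1 h))⟩, ⟨fun h => h1 (large_of_nil h), fun h => h3 (h2 h)⟩,
    ⟨fun h => h2 (h1 (large_of_nil h)), h3⟩⟩

/-- **Comparison of two Weil cohomology theories.** -/
theorem comparison (W : WeilCohomology.{u, v} ops) (W' : WeilCohomology.{u, w} ops) (X : 𝒱.Obj)
    (h : NilOnPowers W X) :
    cohDim W X ≤ cohDim W' X ∧ (cohDim W X = cohDim W' X ↔ NilOnPowers W' X) := by
  have h1 := large_of_nil h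
  have h2 : ∀ n ≥ 1, midRank ops (pw X n) ≤ cohDim W' X ^ (2 * n) := fun n hn => by
    have h3 := powerBounds W' X n hn
    exact h3.1.trans (h3.2.1.trans (nonNeg_le_pow W' X (by omega)))
  have hle : cohDim W X ≤ cohDim W' X := le_of_poly fun n hn =>
    (h1 n hn).trans (Nat.mul_le_mul_left _ (h2 n hn))
  refine ⟨hle, fun heq => ?_, fun h' => ?_⟩
  · by_contra hn
    obtain ⟨m, hm, h3⟩ := exists_small hn
    have hb : 0 < cohDim W' X := by
      rw [Nat.pos_iff_ne_zero]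
      intro h0
      rw [h0, zero_pow (by omega)] at h3
      omega
    have h4 := (decay hn).2
    rw [heq] at h1
    exact not_both hb h1 h4 fun n hn => (powerBounds W' X n hn).1
  · have h3 := large_of_nil h'
    have h4 : ∀ n ≥ 1, midRank ops (pw X n) ≤ cohDim W X ^ (2 * n) := fun n hn => by
      have h5 := powerBounds W X n hn
      exact h5.1.trans (h5.2.1.trans (nonNeg_le_pow W X (by omega)))
    exact le_antisymm hle (le_of_poly fun n hn =>
      (h3 n hn).trans (Nat.mul_le_mul_left _ (h4 n hn)))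

lemma eq_pow_of_sign (h : SignStd W X) {n : ℕ} (hn : 1 ≤ n) :
    evenOddDim W (pw X n) = cohDim W X ^ n := by
  obtain ⟨n, rfl⟩ := Nat.exists_eq_add_of_le' hn
  rw [eq_of_sign (signStd_pw h n), cohDim_pw]

lemma nil_of_sign (h : SignStd W X) : NilOnPowers W X := by
  by_contra hn
  obtain ⟨m, hm, h1⟩ := exists_small hn
  have h2 := evenOddDim_le_nonNeg W (pw X m)
  rw [eq_pow_of_sign h hm] at h2
  omega

/-- **The three alternatives.** -/
theorem alternatives (W : WeilCohomology.{u, v} ops) (X : 𝒱.Obj) : Alternatives W X := by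
  by_cases h : SignStd W X
  · exact Or.inl ⟨h, nil_of_sign h, fun n hn => eq_pow_of_sign h hn⟩
  · right
    by_cases hn : NilOnPowers W X
    · left
      refine ⟨h, hn, large_mono (large_of_nil hn) fun n hn => (powerBounds W X n hn).1,
        fun n hn => ?_⟩
      obtain ⟨n, rfl⟩ := Nat.exists_eq_add_of_le' hn
      exact halfAt h n
    · right
      exact ⟨h, hn, (decay hn).1, (decay hn).2⟩

end Pool.Agent.L0h13.GP
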