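import Pool.Agent.L0h13.GP.Defs
import Pool.Agent.N536.HK.Main
import Pool.Agent.R908.Ext
import Pool.Agent.H447R3.NumB

/-!
# Numerically trivial operators
-/

set_option autoImplicit false

open CategoryTheory AlgebraicGeometry Finset TensorProduct Module

universe u v

namespace Pool.Agent.L0h13.GP

open Pool.Agent.H914 VarClass Obj WeilCohomology Pool.Agent.N190.CB Pool.Agent.N103.OC
  Pool.Agent.H447 Pool.Agent.N536.SG Pool.Agent.N536.HK

variable {k : Type u} [Field k] {𝒱 : VarClass k} {ops : CycleOps 𝒱}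
  {W : WeilCohomology.{u, v} ops} {X Y Z : 𝒱.Obj}

lemma str_comm {a : Module.End W.K (W.H Y)} (ha : a ∈ KOp W Y Y 0) (b : Module.End W.K (W.H Y)) :
    str W Y (a * b) = str W Y (b * a) := by
  rw [str_apply, str_apply, ← mul_assoc, par_comm ha, mul_assoc, LinearMap.trace_mul_comm,
    mul_assoc]

/-- The numerically trivial operators. -/
noncomputable def NSub (W : WeilCohomology.{u, v} ops) (Y : 𝒱.Obj) :
    Submodule W.K (Module.End W.K (W.H Y)) where
  carrier := {φ | φ ∈ KOp W Y Y 0 ∧ ∀ a ∈ KOp W Y Y 0, str W Y (a * φ) = 0}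
  zero_mem' := ⟨Submodule.zero_mem _, fun a _ => by rw [mul_zero, map_zero]⟩
  add_mem' := fun {x y} hx hy => ⟨Submodule.add_mem _ hx.1 hy.1, fun a ha => by
    rw [mul_add, map_add, hx.2 a ha, hy.2 a ha, add_zero]⟩
  smul_mem' := fun c x hx => ⟨Submodule.smul_mem _ _ hx.1, fun a ha => by
    rw [mul_smul_comm, map_smul, hx.2 a ha, smul_zero]⟩

lemma mem_NSub {φ : Module.End W.K (W.H Y)} : φ ∈ NSub W Y ↔
    φ ∈ KOp W Y Y 0 ∧ ∀ a ∈ KOp W Y Y 0, str W Y (a * φ) = 0 := Iff.rfl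

lemma span_pair {φ : Module.End W.K (W.H Y)} : φ ∈ KOp W Y Y 0 ↔
    ∃ c ∈ Submodule.span W.K (cycleClasses W Y),
      W.corr c = φ := by
  constructor
  · intro h
    induction h using Submodule.span_induction with
    | mem x hx =>
      obtain ⟨p, hp, z, hz, rfl⟩ := hx
      have hp' : p = Y.dim := by omega
      subst hp'
      exact ⟨_, Submodule.subset_span ⟨z, hz, rfl⟩, rfl⟩
    | zero => exact ⟨0, Submodule.zero_mem _, corr_zero W⟩
    | add x y _ _ hx hy =>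
      obtain ⟨γ, hγ, rfl⟩ := hx
      obtain ⟨δ, hδ, rfl⟩ := hy
      exact ⟨γ + δ, Submodule.add_mem _ hγ hδ, corr_add W _ _⟩
    | smul a x _ hx =>
      obtain ⟨γ, hγ, rfl⟩ := hx
      exact ⟨a • γ, Submodule.smul_mem _ _ hγ, corr_smul W _ _⟩
  · rintro ⟨c, hc, rfl⟩
    induction hc using Submodule.span_induction with
    | mem x hx =>
      obtain ⟨z, hz, rfl⟩ := hx
      exact KOp.gen (by simp) hz
    | zero => rw [corr_zero]; exact Submodule.zero_mem _
    | add x y _ _ hx hy => rw [corr_add]; exact Submodule.add_mem _ hx hy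
    | smul a x _ hx => rw [corr_smul]; exact Submodule.smul_mem _ _ hx

lemma span_gr2 {c : W.H (Y.prod Y)} (hc : c ∈ Submodule.span W.K (cycleClasses W Y)) :
    c ∈ W.gr (Y.prod Y) (2 * Y.dim) := by
  induction hc using Submodule.span_induction with
  | mem x hx =>
    obtain ⟨z, hz, rfl⟩ := hx
    exact W.cl_mem hz
  | zero => exact Submodule.zero_mem _
  | add x y _ _ hx hy => exact Submodule.add_mem _ hx hy
  | smul a x _ hx => exact Submodule.smul_mem _ _ hx

/-- The operator of the transposed cycle. -/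
noncomputable def cop (W : WeilCohomology.{u, v} ops) {Y : 𝒱.Obj} (z : (Y.prod Y).Cycles) :
    Module.End W.K (W.H Y) := W.corr (W.cl (Y.prod Y) z)

lemma cop_mem {z : (Y.prod Y).Cycles} (hz : (Y.prod Y).IsCyc Y.dim z) : cop W z ∈ KOp W Y Y 0 :=
  KOp.gen (by simp) hz

lemma str_cop {c : W.H (Y.prod Y)} (hc : c ∈ W.gr (Y.prod Y) (2 * Y.dim))
    (z : (Y.prod Y).Cycles) :
    str W Y (W.corr c * cop W (ops.pull (swap Y Y) z)) = W.tr (Y.prod Y) (c * W.cl (Y.prod Y) z) := by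
  rw [cop, str_corr_mul hc, W.cl_pull, Pool.Agent.N190.CB.map_swap_swap]

lemma kop_ind {p : Module.End W.K (W.H Y) → Prop} (h1 : ∀ z, (Y.prod Y).IsCyc Y.dim z →
    p (cop W (ops.pull (swap Y Y) z))) (h0 : p 0) (ha : ∀ x y, p x → p y → p (x + y))
    (hs : ∀ (c : W.K) x, p x → p (c • x)) {a : Module.End W.K (W.H Y)} (h : a ∈ KOp W Y Y 0) :
    p a := by
  induction h using Submodule.span_induction with
  | mem x hx =>
    obtain ⟨q, hq, z, hz, rfl⟩ := hx
    have hq' : q = Y.dim := by omega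
    subst hq'
    have h2 := h1 (ops.pull (swap Y Y) z) (ops.pull_mem _ hz)
    rw [cop, W.cl_pull, W.cl_pull, Pool.Agent.N190.CB.map_swap_swap] at h2
    exact h2
  | zero => exact h0
  | add x y _ _ hx hy => exact ha x y hx hy
  | smul a x _ hx => exact hs a x hx

/-- The two descriptions of the numerically trivial operators. -/
lemma numTrivialOp_iff {φ : Module.End W.K (W.H Y)} : NumTrivialOp W Y φ ↔ φ ∈ NSub W Y := by
  constructor
  · rintro ⟨c, hc, h, rfl⟩
    have hm : W.corr c ∈ KOp W Y Y 0 := span_pair.2 ⟨c, hc, rfl⟩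
    refine ⟨hm, fun a ha => ?_⟩
    rw [← str_comm hm]
    refine kop_ind (p := fun a => str W Y (W.corr c * a) = 0) (fun z hz => ?_) ?_ ?_ ?_ ha
    · rw [str_cop (span_gr2 hc), h _ ⟨z, hz, rfl⟩]
    · rw [mul_zero, map_zero]
    · intro x y hx hy
      rw [mul_add, map_add, hx, hy, add_zero]
    · intro b x hx
      rw [mul_smul_comm, map_smul, hx, smul_zero]
  · rintro ⟨hm, h⟩
    obtain ⟨c, hc, rfl⟩ := span_pair.1 hm
    refine ⟨c, hc, ?_, rfl⟩
    rintro _ ⟨z, hz, rfl⟩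
    rw [← str_cop (span_gr2 hc), str_comm hm]
    exact h _ (cop_mem (ops.pull_mem _ hz))

lemma nsub_mul {φ a : Module.End W.K (W.H Y)} (hφ : φ ∈ NSub W Y) (ha : a ∈ KOp W Y Y 0) :
    a * φ ∈ NSub W Y :=
  ⟨kop_mul ha hφ.1, fun b hb => by rw [← mul_assoc]; exact hφ.2 _ (kop_mul hb ha)⟩

lemma nsub_mul' {φ a : Module.End W.K (W.H Y)} (hφ : φ ∈ NSub W Y) (ha : a ∈ KOp W Y Y 0) :
    φ * a ∈ NSub W Y :=
  ⟨kop_mul hφ.1 ha, fun b hb => by
    rw [← mul_assoc, ← str_comm ha, ← mul_assoc]; exact hφ.2 _ (kop_mul ha hb)⟩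

lemma nsub_ext_left {φ : Module.End W.K (W.H Y)} (hφ : φ ∈ NSub W Y)
    {ψ : Module.End W.K (W.H Z)} (hψ : ψ ∈ KOp W Z Z 0) :
    extOp W φ ψ ∈ NSub W (Y.prod Z) := by
  refine ⟨(kop_class W).ext hφ.1 hψ, fun A hA => ?_⟩
  obtain ⟨T, hT, h1⟩ := exists_ptrace hA hψ
  obtain ⟨f, hf⟩ := corr_bijective.2 φ
  have hf' : W.corr f = φ := hf
  rw [← hf', h1, hf']
  exact hφ.2 _ (KOp.cast hT (by ring))

lemma nsub_ext_right {φ : Module.End W.K (W.H Y)} (hφ : φ ∈ KOp W Y Y 0)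
    {ψ : Module.End W.K (W.H Z)} (hψ : ψ ∈ NSub W Z) :
    extOp W φ ψ ∈ NSub W (Y.prod Z) := by
  refine ⟨(kop_class W).ext hφ hψ.1, fun A hA => ?_⟩
  obtain ⟨T, hT, h1⟩ := exists_ptrace' hA hφ
  obtain ⟨g, hg, rfl⟩ := kop_exists_class hψ.1
  rw [h1 hg]
  exact hψ.2 _ (KOp.cast hT (by ring))

/-- The ranks in the definition of the non-negligible part. -/
lemma nonNeg_le {f : Module.End W.K (W.H Y)} (hf : f ∈ NSub W Y) (hff : f * f = f) :
    nonNeg W Y ≤ finrank W.K (LinearMap.range (1 - f)) :=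
  Nat.sInf_le ⟨f, numTrivialOp_iff.2 hf, hff, rfl⟩

lemma exists_nonNeg (W : WeilCohomology.{u, v} ops) (Y : 𝒱.Obj) : ∃ f ∈ NSub W Y, f * f = f ∧
    nonNeg W Y = finrank W.K (LinearMap.range (1 - f)) := by
  have hne : (complRanks (NumTrivialOp W Y)).Nonempty :=
    ⟨_, 0, numTrivialOp_iff.2 (NSub W Y).zero_mem, by simp, rfl⟩
  obtain ⟨f, h1, h2, h3⟩ := Nat.sInf_mem hne
  exact ⟨f, numTrivialOp_iff.1 h1, h2, h3⟩

theorem evenOddDim_le_nonNeg (W : WeilCohomology.{u, v} ops) (Y : 𝒱.Obj) :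
    evenOddDim W Y ≤ nonNeg W Y := by
  obtain ⟨f, hf, -, h⟩ := exists_nonNeg W Y
  obtain ⟨e, he, he'⟩ := exists_halves W Y
  rw [evenOddDim_eq he he', h]
  exact rank_halves_le hf.1 (fun s _ a ha => hf.2 a ha.1) he

theorem nonNeg_le_cohDim (W : WeilCohomology.{u, v} ops) (Y : 𝒱.Obj) :
    nonNeg W Y ≤ cohDim W Y :=
  (nonNeg_le (NSub W Y).zero_mem (by simp)).trans (Submodule.finrank_le _)

lemma rank_ext {e : Module.End W.K (W.H Y)} {f : Module.End W.K (W.H Z)} (he : e * e = e)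
    (hf : f * f = f) : finrank W.K (LinearMap.range (extOp W e f)) =
      finrank W.K (LinearMap.range e) * finrank W.K (LinearMap.range f) := by
  have hef : extOp W e f * extOp W e f = extOp W e f := by rw [extOp_mul, he, hf]
  have h5 := N536.HK.trace_idem hef
  rw [trace_extOp, N536.HK.trace_idem he, N536.HK.trace_idem hf] at h5
  exact_mod_cast h5.symm

theorem nonNeg_prod (W : WeilCohomology.{u, v} ops) (Y Z : 𝒱.Obj) :
    nonNeg W (Y.prod Z) ≤ nonNeg W Y * nonNeg W Z := by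
  obtain ⟨f, hf, hff, h⟩ := exists_nonNeg W Y
  obtain ⟨g, hg, hgg, h'⟩ := exists_nonNeg W Z
  rw [h, h', ← rank_ext (idem_compl hff) (idem_compl hgg)]
  set q : Module.End W.K (W.H (Y.prod Z)) := extOp W f 1 + extOp W (1 - f) g with hq
  have h1 : 1 - q = extOp W (1 - f) (1 - g) := by
    have h2 : (1 : Module.End W.K (W.H (Y.prod Z))) = extOp W (f + (1 - f)) (g + (1 - g)) := by
      rw [add_sub_cancel, add_sub_cancel, extOp_one]
    have h3 : extOp W f (1 : Module.End W.K (W.H Z)) = extOp W f (g + (1 - g)) := by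
      rw [add_sub_cancel]
    rw [hq, h3, h2, extOp_add_left, extOp_add_right, extOp_add_right]
    abel
  have hqm : q ∈ NSub W (Y.prod Z) := Submodule.add_mem _
    (nsub_ext_left hf (KOp.id Z))
    (nsub_ext_right (Submodule.sub_mem _ (KOp.id Y) hf.1) hg)
  have hqq : q * q = q := by
    have h4 : (1 - q) * (1 - q) = 1 - q := by
      rw [h1, extOp_mul, idem_compl hff, idem_compl hgg]
    have h5 := idem_compl h4
    rwa [sub_sub_cancel] at h5
  rw [← h1]
  exact nonNeg_le hqm hqq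

end Pool.Agent.L0h13.GP
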